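import Mathlib
import Pool.Agent.Lib.MP_842576_h7.Notions
import Pool.Agent.Lib.MP_842576_h7.Defs
import Pool.Agent.Lib.MP_842576_h7.Tri
import Pool.Agent.Lib.MP_842576_h7.Orbit
import Pool.Agent.Lib.MP_842576_h7.ProdSub
import Pool.Agent.Lib.MP_842576_h7.Box
import Pool.Agent.Lib.MP_842576_h7.Scheme
import Pool.Agent.Lib.MP_842576_h7.Haar1
import Pool.Agent.Lib.MP_842576_h7.Haar2
import Pool.Agent.Lib.MP_842576_h7.Top
import Pool.Agent.Lib.MP_842576_h7.NotConul

/-!
# Non-meager independence is not always the maximum strongly admissible geometry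

We construct a Polish group `G`, a strongly admissible ideal scheme on `G` and two closed
subgroups of `G` whose product lies in the ideal of `G` although it is comeager in `G`.

The group `G` is the product of totally disconnected locally compact groups `GG p`, `p` prime.
`GG p` is an increasing union of compact open pro-`p` groups: its elements are the permutations of
a space of sequences that add to every letter something depending on the letters before it, and
that eventually preserve the letters at even places.  As the orders are coprime, every closed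
subgroup `H` of `G` is a product of closed subgroups `H_p`.  The ideal of `H` is the σ-ideal
generated by the boxes `∏ X_p` for which some `X_p` is Haar null in `H_p` or infinitely many `X_p`
are not co-null in `H_p`.  Transitivity follows from Fubini's theorem in every factor.  Finally
`GG p` has closed subgroups `K_p`, `M_p` such that `K_p M_p` is open and dense but not co-null, so
that the product of the closed subgroups `∏ K_p` and `∏ M_p` is comeager and lies in the ideal.
-/

set_option autoImplicit false

namespace Pool.Agent.Results.MP_842576_lc.NotMaximum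

open Pool.Agent.MP842576
open scoped Pointwise

/-- the primes -/
noncomputable def PP (n : ℕ) : ℕ := Nat.nth Nat.Prime n

theorem PP_prime (n : ℕ) : (PP n).Prime := Nat.prime_nth_prime n

theorem PP_injective : Function.Injective PP :=
  Nat.nth_injective Nat.infinite_setOf_prime

theorem PP_neZero (n : ℕ) : NeZero (PP n) := ⟨(PP_prime n).ne_zero⟩

/-- the factors of the group -/
abbrev Fac (n : ℕ) : Type := GG (PP n)

/-- the two closed subgroups -/
noncomputable def SK : Subgroup (∀ n, Fac n) := Subgroup.pi Set.univ (fun n => KK (PP n))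

noncomputable def SM : Subgroup (∀ n, Fac n) := Subgroup.pi Set.univ (fun n => MM (PP n))

theorem comp_pi (L : ∀ n, Subgroup (Fac n)) (n : ℕ) :
    comp (Subgroup.pi Set.univ L) n = L n := by
  ext x
  rw [mem_comp, Subgroup.mem_pi]
  constructor
  · intro h
    have := h n (Set.mem_univ n)
    rwa [Pi.mulSingle_eq_same] at this
  · intro h i _
    by_cases hi : i = n
    · subst hi
      rwa [Pi.mulSingle_eq_same]
    · rw [Pi.mulSingle_eq_of_ne hi]
      exact (L i).one_mem

theorem isClosed_pi (L : ∀ n, Subgroup (Fac n)) (hL : ∀ n, IsClosed (L n : Set (Fac n))) :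
    IsClosed ((Subgroup.pi Set.univ L : Subgroup (∀ n, Fac n)) : Set (∀ n, Fac n)) := by
  rw [Subgroup.coe_pi]
  exact isClosed_set_pi fun n _ => hL n

theorem result : ∃ (G : Type) (_ : Group G) (_ : TopologicalSpace G) (_ : IsTopologicalGroup G)
    (_ : PolishSpace G) (I : Subgroup G → Set (Set G)) (H K₁ K₂ : Subgroup G),
    StronglyAdmissible I ∧ IsClosed (H : Set G) ∧ IsClosed (K₁ : Set G) ∧
      IsClosed (K₂ : Set G) ∧ K₁ ≤ H ∧ K₂ ≤ H ∧ (K₁ : Set G) * (K₂ : Set G) ∈ I H ∧
      ¬ IsMeagre ((↑) ⁻¹' ((K₁ : Set G) * (K₂ : Set G)) : Set H) ∧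
      ((↑) ⁻¹' ((K₁ : Set G) * (K₂ : Set G)) : Set H) ∈ residual H := by
  haveI : ∀ n, Fact (PP n).Prime := fun n => ⟨PP_prime n⟩
  haveI : ∀ n, NeZero (PP n) := PP_neZero
  letI : ∀ n, MeasurableSpace (Fac n) := fun n => borel (Fac n)
  haveI : ∀ n, BorelSpace (Fac n) := fun n => ⟨rfl⟩
  have hpow : ∀ n (x : Fac n), ∀ U ∈ nhds (1 : Fac n), ∃ k : ℕ, ∀ a : ℤ,
      (x ^ (PP n ^ k)) ^ a ∈ U := fun n x U hU => exists_pow_mem x U hU
  have hadm := stronglyAdmissible_II (Γ := Fac) PP PP_prime PP_injective hpow
  have hSK : IsClosed (SK : Set (∀ n, Fac n)) := isClosed_pi _ fun n => isClosed_KK (PP n)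
  have hSM : IsClosed (SM : Set (∀ n, Fac n)) := isClosed_pi _ fun n => isClosed_MM (PP n)
  have htop : IsClosed ((⊤ : Subgroup (∀ n, Fac n)) : Set (∀ n, Fac n)) := by
    rw [Subgroup.coe_top]
    exact isClosed_univ
  have hmem : (SK : Set (∀ n, Fac n)) * (SM : Set (∀ n, Fac n)) ∈
      II (⊤ : Subgroup (∀ n, Fac n)) := by
    rw [mul_mem_II_iff PP PP_prime PP_injective hpow hSK hSM htop le_top le_top]
    refine Or.inr ?_
    have : {n | ¬ Nul (comp (⊤ : Subgroup (∀ n, Fac n)) n)
        ((comp SK n : Set (Fac n)) * (comp SM n : Set (Fac n)))ᶜ} = Set.univ := by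
      rw [Set.eq_univ_iff_forall]
      intro n
      have h1 : comp (⊤ : Subgroup (∀ n, Fac n)) n = ⊤ := by
        ext x
        exact ⟨fun _ => trivial, fun _ => trivial⟩
      show ¬ _
      rw [h1, SK, SM, comp_pi, comp_pi]
      exact not_nul_top
    rw [this]
    exact Set.infinite_univ
  have hres : (SK : Set (∀ n, Fac n)) * (SM : Set (∀ n, Fac n)) ∈ residual (∀ n, Fac n) := by
    rw [mul_eq_pi PP PP_prime PP_injective hpow hSK hSM]
    have h2 : Set.pi Set.univ (fun n => (comp SK n : Set (Fac n)) * (comp SM n : Set (Fac n))) =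
        ⋂ n, (fun x : ∀ n, Fac n => x n) ⁻¹'
          ((comp SK n : Set (Fac n)) * (comp SM n : Set (Fac n))) := by
      ext x
      simp only [Set.mem_pi, Set.mem_univ, true_imp_iff, Set.mem_iInter, Set.mem_preimage]
    rw [h2, countable_iInter_mem]
    intro n
    have h3 := tendsto_residual_of_isOpenMap (f := fun x : ∀ n, Fac n => x n)
      (continuous_apply n) (isOpenMap_eval n)
    apply h3
    rw [SK, SM, comp_pi, comp_pi, KK_mul_MM]
    exact residual_of_dense_open (isOpen_orbit 0) (dense_orbit (PP n))
  have hres2 : ((↑) ⁻¹' ((SK : Set (∀ n, Fac n)) * (SM : Set (∀ n, Fac n))) :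
      Set (⊤ : Subgroup (∀ n, Fac n))) ∈ residual (⊤ : Subgroup (∀ n, Fac n)) := by
    have h4 : IsOpenMap ((↑) : (⊤ : Subgroup (∀ n, Fac n)) → ∀ n, Fac n) := by
      apply IsOpen.isOpenMap_subtype_val
      rw [Subgroup.coe_top]
      exact isOpen_univ
    exact tendsto_residual_of_isOpenMap continuous_subtype_val h4 hres
  refine ⟨∀ n, Fac n, inferInstance, inferInstance, inferInstance, inferInstance,
    fun H => II H, ⊤, SK, SM, hadm, htop, hSK, hSM, le_top, le_top, hmem, ?_, hres2⟩
  intro hmeager
  haveI : PolishSpace (⊤ : Subgroup (∀ n, Fac n)) := htop.polishSpace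
  have h5 : (∅ : Set (⊤ : Subgroup (∀ n, Fac n))) ∈ residual (⊤ : Subgroup (∀ n, Fac n)) := by
    have := Filter.inter_mem hres2 hmeager
    rwa [Set.inter_compl_self] at this
  exact (dense_of_mem_residual h5).nonempty.ne_empty rfl

end Pool.Agent.Results.MP_842576_lc.NotMaximum
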